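import Pool.Agent.H49.KT.Targets

/-!
Emptying the stacks of the simulated machine.
-/

namespace Pool.Agent.H56.KT

open Turing Function
open Pool.Agent.H49.KT

variable {U : BM}

/-- empty one stack -/
theorem sp_clk (v : MM U) (u : UU U) (z : Nm → List Bool) (k : U.tm.K) :
    Spec (.loop (.inl k) (fun v _ => v) id skip : CC U) (mkS v u z)
      (mkS v (update u k []) z) (2 * (u k).length + 1) := by
  have e := Spec.loop (K := KK U) (Γ := GG U) (k := .inl k)
    (f := fun (v : MM U) (_ : GG U (.inl k)) => v) (g := id)
    (c := (skip : CC U)) (s := mkS v u z) (u k) rfl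
    (fun _ => mkS v (update u k []) z) (fun _ => 1) (by
      rw [upd_inl]
      rfl) (fun i hi => sp_skip v (update u k []) z)
  refine Spec.mono (T₁ := 1 + ∑ i ∈ Finset.range (u k).length, (1 + 1)) e ?_
  simp only [Finset.sum_const, Finset.card_range, smul_eq_mul]
  omega

theorem sp_clearL (v : MM U) (z : Nm → List Bool) : ∀ (ks : List U.tm.K) (_ : ks.Nodup)
    (u : UU U),
    Spec (clearL ks : CC U) (mkS v u z)
      (mkS v (fun k => haveI := Classical.dec (k ∈ ks); if k ∈ ks then [] else u k) z)
      (2 * (ks.map (fun k => (u k).length)).sum + ks.length + 1) := by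
  classical
  intro ks
  induction ks with
  | nil =>
    intro _ u
    have e := sp_skip v u z
    refine ⟨?_, ?_⟩
    · rw [show (clearL [] : CC U) = skip from rfl, e.1]
      congr 1
      funext k
      simp
    · rw [show (clearL [] : CC U) = skip from rfl]
      simpa using e.2
  | cons k ks ih =>
    intro hn u
    rw [List.nodup_cons] at hn
    have e := (sp_clk v u z k).seq (ih hn.2 (update u k []))
    refine ⟨?_, ?_⟩
    · rw [show (clearL (k :: ks) : CC U) =
        .seq (.loop (.inl k) (fun v _ => v) id skip) (clearL ks) from rfl, e.1]
      congr 1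
      funext j
      by_cases hj : j = k
      · subst hj
        simp
      · by_cases h : j ∈ ks
        · simp [h]
        · simp [h, hj]
    · rw [show (clearL (k :: ks) : CC U) =
        .seq (.loop (.inl k) (fun v _ => v) id skip) (clearL ks) from rfl]
      refine e.2.trans ?_
      have hs : (ks.map (fun j => ((update u k [] : UU U) j).length)) =
          ks.map (fun j => (u j).length) := by
        refine List.map_congr_left fun j hj => ?_
        rw [update_of_ne]
        rintro rfl
        exact hn.1 hj
      rw [hs]
      simp only [List.map_cons, List.sum_cons, List.length_cons]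
      omega

theorem pf_CLU : T_CLU := by
  classical
  intro U
  letI := U.tm.kFin
  refine ⟨(Finset.univ : Finset U.tm.K).toList.length + 2, ?_⟩
  intro v u z
  have e := (sp_clearL v z (Finset.univ : Finset U.tm.K).toList
    (Finset.nodup_toList _) u).seq
    (sp_load (v) (fun k => haveI := Classical.dec (k ∈ (Finset.univ : Finset U.tm.K).toList);
      if k ∈ (Finset.univ : Finset U.tm.K).toList then [] else u k) z
      (fun v => v.slu none U.tm.initialState))
  have hE : (fun k => haveI := Classical.dec (k ∈ (Finset.univ : Finset U.tm.K).toList);
      if k ∈ (Finset.univ : Finset U.tm.K).toList then [] else u k) = E₀ U := by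
    funext k
    simp [E₀]
  have hsum : ((Finset.univ : Finset U.tm.K).toList.map (fun k => (u k).length)).sum = hs U u := by
    rw [hs, Finset.sum_map_toList]
  rw [hE, hsum] at e
  refine Spec.mono (T₁ := 2 * hs U u + (Finset.univ : Finset U.tm.K).toList.length + 1 + 1) ?_ ?_
  · exact e
  · omega

end Pool.Agent.H56.KT
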