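import Pool.Agent.H49.KT.Targets

/-!
Running the simulated machine along the clock.
-/

namespace Pool.Agent.H56.KT

open Turing Function
open Pool.Agent.H49.KT

theorem fs_none {U : BM} (c : CF U) (h : c.l = none) : fs U c = c := by
  obtain ⟨l, w, S⟩ := c
  simp only at h
  subst h
  rfl

theorem pf_RC : T_STEP → T_RC := by
  intro hS U
  obtain ⟨B, hB⟩ := hS U
  refine ⟨B + 3, ?_⟩
  intro v u z T hT
  have e := Spec.loop (K := KK U) (Γ := GG U) (k := .inr .clk)
    (f := fun (v : MM U) (_ : GG U (.inr .clk)) => v) (g := id)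
    (c := (.ite (fun v : MM U => v.l.isSome) stepU skip : CC U)) (s := mkS v u z)
    (un T) hT
    (fun i => mkS (v.slu ((fs U)^[i] ⟨v.l, v.u, u⟩).l ((fs U)^[i] ⟨v.l, v.u, u⟩).var)
      ((fs U)^[i] ⟨v.l, v.u, u⟩).stk (update z .clk []))
    (fun _ => B + 2) (by
      rw [upd_inr]
      rfl) (fun i hi => by
      simp only [iterate_succ_apply']
      generalize (fs U)^[i] ⟨v.l, v.u, u⟩ = c
      cases hc : c.l with
      | none =>
        have h1 := Spec.ite_f (p := fun v : MM U => v.l.isSome) (c₁ := (stepU : CC U))
          (s := mkS (v.slu c.l c.var) c.stk (update z .clk []))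
          (by simp [hc]) (sp_skip (v.slu c.l c.var) c.stk (update z .clk []))
        have h2 := h1.mono (T₂ := B + 2) (by omega)
        rw [fs_none c hc]
        rw [hc] at h2 ⊢
        exact h2
      | some l =>
        have h1 := Spec.ite_t (p := fun v : MM U => v.l.isSome) (c₂ := (skip : CC U))
          (s := mkS (v.slu c.l c.var) c.stk (update z .clk []))
          (by simp [hc]) (hB (v.slu c.l c.var) c.stk (update z .clk []))
        have h2 := h1.mono (T₂ := B + 2) (by omega)
        have hcc : (⟨(v.slu c.l c.var).l, (v.slu c.l c.var).u, c.stk⟩ : CF U) = c := rfl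
        rw [hcc] at h2
        rw [hc] at h2
        exact h2)
  refine Spec.mono (T₁ := 1 + ∑ i ∈ Finset.range (un T).length, (B + 2 + 1)) ?_ ?_
  · simp only [List.length_replicate] at e ⊢
    exact e
  · simp only [List.length_replicate, Finset.sum_const, Finset.card_range, smul_eq_mul]
    rw [Nat.mul_comm T, Nat.add_comm 1]

end Pool.Agent.H56.KT
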